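import Mathlib
import Pool.Agent.H.MP_681294_gt.F

namespace Pool.Agent.Results.MP_0ffb5f_gt.Yes

open MeasureTheory ProbabilityTheory Set
open scoped Pointwise ENNReal

/-- Euclidean `n`-space. -/
abbrev E (n : ℕ) : Type := EuclideanSpace ℝ (Fin n)

/-- The standard Gaussian measure. -/
noncomputable def gam (n : ℕ) : Measure (E n) := stdGaussian (E n)

/-- The balancing constant of the Euclidean unit ball and `V`. -/
noncomputable def beta {n : ℕ} (V : Set (E n)) : ℝ≥0∞ :=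
  ⨆ (u : Fin n → E n) (_ : ∀ i, ‖u i‖ ≤ 1), ⨅ (ε : Fin n → ℝ) (_ : ∀ i, ε i = 1 ∨ ε i = -1),
    ENNReal.ofReal (gauge V (∑ i, ε i • u i))

open Pool.Agent.H.MP_681294_gt hiding E

theorem result : ∃ g : ℝ → ℝ, AntitoneOn g (Ioc 0 1) ∧ (∀ p ∈ Ioc (0 : ℝ) 1, 0 ≤ g p) ∧
    ∀ n : ℕ, 1 ≤ n → ∀ V : Set (E n), IsCompact V → Convex ℝ V → 0 ∈ interior V →
      ∫ x in V, x ∂gam n = 0 → beta V ≤ ENNReal.ofReal (g (gam n V).toReal) := by
  obtain ⟨g, h1, h2, h3⟩ := core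
  refine ⟨g, h1.mono fun _ h => h.1, fun p hp => (h2 p hp.1).le, fun n _ V hV hc h0 hz => ?_⟩
  have q0 := gauss_pos ⟨0, h0⟩
  refine iSup₂_le fun u hu => ?_
  obtain ⟨ε, hε, h⟩ := h3 n V 0 hV.isClosed hc q0 (by rw [smul_zero]; exact hz) u hu
  refine iInf₂_le_of_le ε hε (ENNReal.ofReal_le_ofReal (gauge_le_of_mem (h2 _ q0).le ?_))
  rw [zero_add] at h
  exact (mem_smul_set_iff_inv_smul_mem₀ (h2 _ q0).ne' _ _).2 h

end Pool.Agent.Results.MP_0ffb5f_gt.Yes
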